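import Mathlib

/-!
# Exclude multiplicities of plateaued APN functions are odd
-/

namespace Pool.Agent.Results.MP_b298ef_co.OddMultiplicities

open Finset

/-- the vector space `𝔽₂ⁿ` -/
abbrev V (n : ℕ) : Type := Fin n → ZMod 2

/-- `F` is APN: for all `a ≠ 0` and `b`, the equation `F x + F (x + a) = b` has `0` or `2`
solutions. -/
def IsAPN {n : ℕ} (F : V n → V n) : Prop :=
  ∀ a : V n, a ≠ 0 → ∀ b : V n,
    (univ.filter (fun x => F x + F (x + a) = b)).card = 0 ∨
    (univ.filter (fun x => F x + F (x + a) = b)).card = 2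

/-- the Walsh transform `W_F(u,v) = ∑ₓ (-1)^(v·F(x) + u·x)` -/
def W {n : ℕ} (F : V n → V n) (u v : V n) : ℤ :=
  ∑ x : V n, (-1) ^ (v ⬝ᵥ F x + u ⬝ᵥ x).val

/-- `F` is plateaued: for every `v ≠ 0` there is `λ ≥ 0` with `W_F(u,v) ∈ {0, λ, -λ}` for all `u`. -/
def IsPlateaued {n : ℕ} (F : V n → V n) : Prop :=
  ∀ v : V n, v ≠ 0 → ∃ l : ℝ, 0 ≤ l ∧ ∀ u : V n,
    (W F u v : ℝ) = 0 ∨ (W F u v : ℝ) = l ∨ (W F u v : ℝ) = -l

/-- the graph of `F` -/
def graph {n : ℕ} (F : V n → V n) : Finset (V n × V n) := univ.image (fun x => (x, F x))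

/-- the exclude multiplicity of `p`: the number of 3-element subsets of the graph of `F` with
sum `p` -/
def exclMult {n : ℕ} (F : V n → V n) (p : V n × V n) : ℕ :=
  (((graph F).powersetCard 3).filter (fun S => ∑ s ∈ S, s = p)).card

/-! ### characters -/

/-- the sign character -/
def chi (t : ZMod 2) : ℤ := (-1) ^ t.val

lemma chi_add (s t : ZMod 2) : chi (s + t) = chi s * chi t := by
  revert s t; decide

lemma chi_sq (s : ZMod 2) : chi s * chi s = 1 := by revert s; decide

lemma chi_zero : chi 0 = 1 := rfl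

lemma chi_one : chi 1 = -1 := rfl

lemma add_self {n : ℕ} (x : V n) : x + x = 0 := by
  funext i
  have : ∀ t : ZMod 2, t + t = 0 := by decide
  exact this (x i)

lemma add_eq_zero' {n : ℕ} {x y : V n} : x + y = 0 ↔ x = y := by
  constructor
  · intro h
    have := congrArg (· + y) h
    simp only [add_assoc, add_self, add_zero, zero_add] at this
    exact this
  · rintro rfl; exact add_self x

lemma sum_chi {n : ℕ} (y : V n) : ∑ v : V n, chi (v ⬝ᵥ y) = if y = 0 then 2 ^ n else 0 := by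
  split_ifs with h
  · subst h
    simp [chi_zero, Fintype.card_pi, ZMod.card]
  · obtain ⟨i, hi⟩ : ∃ i, y i ≠ 0 := by
      by_contra hcon
      push Not at hcon
      exact h (funext hcon)
    have hi1 : y i = 1 := by
      have : ∀ t : ZMod 2, t ≠ 0 → t = 1 := by decide
      exact this _ hi
    have h1 : ∑ v : V n, chi (v ⬝ᵥ y) = ∑ v : V n, chi ((v + Pi.single i 1) ⬝ᵥ y) :=
      (Equiv.sum_comp (Equiv.addRight (Pi.single i (1 : ZMod 2) : V n))
        (fun v => chi (v ⬝ᵥ y))).symm
    have h2 : ∑ v : V n, chi ((v + Pi.single i 1) ⬝ᵥ y) = -∑ v : V n, chi (v ⬝ᵥ y) := by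
      rw [← sum_neg_distrib]
      apply sum_congr rfl
      intro v _
      rw [add_dotProduct, single_dotProduct, hi1, chi_add, mul_one, chi_one]
      ring
    linarith

lemma sum_chi' {n : ℕ} (y : V n) : ∑ v : V n, chi (y ⬝ᵥ v) = if y = 0 then 2 ^ n else 0 := by
  rw [← sum_chi]
  apply sum_congr rfl
  intro v _
  rw [dotProduct_comm]

lemma W_eq {n : ℕ} (F : V n → V n) (u v : V n) :
    W F u v = ∑ x : V n, chi (v ⬝ᵥ F x) * chi (u ⬝ᵥ x) := by
  unfold W
  apply sum_congr rfl
  intro x _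
  rw [← chi_add]
  rfl

/-- number of ordered triples -/
def N3 {n : ℕ} (F : V n → V n) (a b : V n) : ℕ :=
  (univ.filter (fun t : V n × V n × V n => t.1 + t.2.1 + t.2.2 = a ∧
    F t.1 + F t.2.1 + F t.2.2 = b)).card

lemma inv_W {n : ℕ} (F : V n → V n) (v a : V n) :
    ∑ u : V n, W F u v * chi (u ⬝ᵥ a) = 2 ^ n * chi (v ⬝ᵥ F a) := by
  simp only [W_eq, sum_mul]
  rw [sum_comm]
  have h1 : ∀ x : V n, ∑ u : V n, chi (v ⬝ᵥ F x) * chi (u ⬝ᵥ x) * chi (u ⬝ᵥ a) =
      if x = a then 2 ^ n * chi (v ⬝ᵥ F a) else 0 := by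
    intro x
    have : ∀ u : V n, chi (v ⬝ᵥ F x) * chi (u ⬝ᵥ x) * chi (u ⬝ᵥ a) =
        chi (v ⬝ᵥ F x) * chi (u ⬝ᵥ (x + a)) := by
      intro u
      rw [dotProduct_add, chi_add]; ring
    rw [sum_congr rfl (fun u _ => this u), ← mul_sum, sum_chi]
    by_cases hx : x = a
    · subst hx
      rw [if_pos (add_self x), if_pos rfl]; ring
    · rw [if_neg (fun h => hx (add_eq_zero'.mp h)), if_neg hx]; ring
  rw [sum_congr rfl (fun x _ => h1 x), sum_ite_eq' univ a]
  simp

lemma cube_sum {n : ℕ} (F : V n → V n) (a b : V n) :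
    ∑ v : V n, ∑ u : V n, W F u v ^ 3 * chi (u ⬝ᵥ a) * chi (v ⬝ᵥ b) =
      2 ^ n * 2 ^ n * N3 F a b := by
  have h1 : ∀ u v : V n, W F u v ^ 3 * chi (u ⬝ᵥ a) * chi (v ⬝ᵥ b) =
      ∑ x : V n, ∑ y : V n, ∑ z : V n, chi (v ⬝ᵥ (F x + F y + F z + b)) *
        chi (u ⬝ᵥ (x + y + z + a)) := by
    intro u v
    have e : W F u v ^ 3 = W F u v * (W F u v * W F u v) := by ring
    rw [e, W_eq, sum_mul, sum_mul, sum_mul]
    apply sum_congr rfl
    intro x _
    rw [sum_mul, mul_sum, sum_mul, sum_mul]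
    apply sum_congr rfl
    intro y _
    rw [mul_sum, mul_sum, sum_mul, sum_mul]
    apply sum_congr rfl
    intro z _
    rw [dotProduct_add, dotProduct_add, dotProduct_add, dotProduct_add, dotProduct_add,
      dotProduct_add, chi_add, chi_add, chi_add, chi_add, chi_add, chi_add]
    ring
  have h2 : ∑ v : V n, ∑ u : V n, W F u v ^ 3 * chi (u ⬝ᵥ a) * chi (v ⬝ᵥ b) =
      ∑ x : V n, ∑ y : V n, ∑ z : V n, (∑ v : V n, chi (v ⬝ᵥ (F x + F y + F z + b))) *
        (∑ u : V n, chi (u ⬝ᵥ (x + y + z + a))) := by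
    simp only [h1]
    simp only [sum_mul_sum]
    rw [sum_congr rfl (fun v _ => sum_comm)]
    rw [sum_comm]
    apply sum_congr rfl
    intro x _
    rw [sum_congr rfl (fun v _ => sum_comm)]
    rw [sum_comm]
    apply sum_congr rfl
    intro y _
    rw [sum_congr rfl (fun v _ => sum_comm)]
    rw [sum_comm]
  rw [h2]
  simp only [sum_chi]
  have h3 : ∀ x y z : V n, (if F x + F y + F z + b = 0 then (2 : ℤ) ^ n else 0) *
      (if x + y + z + a = 0 then 2 ^ n else 0) =
      if (x + y + z = a ∧ F x + F y + F z = b) then 2 ^ n * 2 ^ n else 0 := by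
    intro x y z
    simp only [add_eq_zero']
    by_cases c1 : x + y + z = a <;> by_cases c2 : F x + F y + F z = b <;> simp [c1, c2]
  simp only [h3]
  rw [N3, card_filter]
  push_cast
  rw [mul_sum, Fintype.sum_prod_type]
  apply sum_congr rfl
  intro x _
  rw [Fintype.sum_prod_type]
  apply sum_congr rfl
  intro y _
  apply sum_congr rfl
  intro z _
  simp only
  split_ifs <;> simp

lemma key_sum {n : ℕ} (F : V n → V n) (L : V n → ℤ) (hL : ∀ u v, W F u v ^ 3 = L v * W F u v)
    (a b : V n) : 2 ^ n * (N3 F a b : ℤ) = ∑ v : V n, L v * chi (v ⬝ᵥ (F a + b)) := by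
  have h1 := cube_sum F a b
  have h2 : ∑ v : V n, ∑ u : V n, W F u v ^ 3 * chi (u ⬝ᵥ a) * chi (v ⬝ᵥ b) =
      2 ^ n * ∑ v : V n, L v * chi (v ⬝ᵥ (F a + b)) := by
    rw [mul_sum]
    apply sum_congr rfl
    intro v _
    have h3 : ∀ u : V n, W F u v ^ 3 * chi (u ⬝ᵥ a) * chi (v ⬝ᵥ b) =
        (L v * chi (v ⬝ᵥ b)) * (W F u v * chi (u ⬝ᵥ a)) := by
      intro u; rw [hL]; ring
    rw [sum_congr rfl (fun u _ => h3 u), ← mul_sum, inv_W, dotProduct_add, chi_add]
    ring
  rw [h2, mul_assoc] at h1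
  have h4 : (2 : ℤ) ^ n ≠ 0 := by positivity
  exact (mul_left_cancel₀ h4 h1).symm

lemma W_zero {n : ℕ} (F : V n → V n) (u : V n) : W F u 0 = if u = 0 then 2 ^ n else 0 := by
  rw [W_eq, ← sum_chi']
  apply sum_congr rfl
  intro x _
  rw [zero_dotProduct, chi_zero, one_mul]

lemma parseval {n : ℕ} (F : V n → V n) (v : V n) : ∑ u : V n, W F u v ^ 2 = 2 ^ n * 2 ^ n := by
  have h1 : ∀ u : V n, W F u v ^ 2 = ∑ a : V n, chi (v ⬝ᵥ F a) * (W F u v * chi (u ⬝ᵥ a)) := by
    intro u
    rw [sq]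
    nth_rewrite 2 [W_eq]
    rw [mul_sum]
    apply sum_congr rfl
    intro a _
    ring
  simp only [h1]
  rw [sum_comm]
  have h2 : ∀ a : V n, ∑ u : V n, chi (v ⬝ᵥ F a) * (W F u v * chi (u ⬝ᵥ a)) = 2 ^ n := by
    intro a
    rw [← mul_sum, inv_W]
    have := chi_sq (v ⬝ᵥ F a)
    calc chi (v ⬝ᵥ F a) * (2 ^ n * chi (v ⬝ᵥ F a)) =
        2 ^ n * (chi (v ⬝ᵥ F a) * chi (v ⬝ᵥ F a)) := by ring
      _ = 2 ^ n := by rw [this, mul_one]
  simp only [h2]
  simp [ZMod.card]

lemma exists_exp {n : ℕ} {F : V n → V n} (hF : IsPlateaued F) (v : V n) (hv : v ≠ 0) :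
    ∃ e : ℕ, n ≤ 2 * e ∧ (∀ u, W F u v = 0 ∨ W F u v ^ 2 = 2 ^ (2 * e)) ∧
      (2 * e = n → ∀ u, W F u v ^ 2 = 2 ^ n) := by
  obtain ⟨l, _, hl⟩ := hF v hv
  have hpar := parseval F v
  have hex : ∃ u0, W F u0 v ≠ 0 := by
    by_contra hcon
    push Not at hcon
    rw [sum_eq_zero (fun u _ => by rw [hcon u]; rfl)] at hpar
    have : (0 : ℤ) < 2 ^ n * 2 ^ n := by positivity
    omega
  obtain ⟨u0, hu0⟩ := hex
  have hsq : ∀ u, W F u v ≠ 0 → W F u v ^ 2 = W F u0 v ^ 2 := by
    intro u hu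
    have h1 : ∀ u, W F u v ≠ 0 → (W F u v : ℝ) ^ 2 = l ^ 2 := by
      intro u hu
      rcases hl u with h | h | h
      · exact absurd (by exact_mod_cast h) hu
      · rw [h]
      · rw [h]; ring
    have h2 : (W F u v : ℝ) ^ 2 = (W F u0 v : ℝ) ^ 2 := by rw [h1 u hu, h1 u0 hu0]
    exact_mod_cast h2
  set cnt := (univ.filter (fun u => W F u v ≠ 0)).card with hcnt
  have hcount : (cnt : ℤ) * W F u0 v ^ 2 = 2 ^ n * 2 ^ n := by
    rw [← hpar, hcnt, ← nsmul_eq_mul, ← sum_const, sum_filter]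
    apply sum_congr rfl
    intro u _
    by_cases h : W F u v = 0
    · simp [h]
    · rw [if_pos h, hsq u h]
  have hcountN : cnt * (W F u0 v).natAbs ^ 2 = 2 ^ (2 * n) := by
    have h1 : ((cnt * (W F u0 v).natAbs ^ 2 : ℕ) : ℤ) = ((2 ^ (2 * n) : ℕ) : ℤ) := by
      push_cast
      rw [sq_abs, hcount, two_mul, pow_add]
    exact_mod_cast h1
  have hdvd : (W F u0 v).natAbs ∣ 2 ^ (2 * n) := by
    rw [← hcountN, sq]
    exact ⟨cnt * (W F u0 v).natAbs, by ring⟩
  obtain ⟨e, _, he⟩ := (Nat.dvd_prime_pow Nat.prime_two).mp hdvd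
  have hW2 : W F u0 v ^ 2 = 2 ^ (2 * e) := by
    rw [← sq_abs, Int.abs_eq_natAbs, he]
    push_cast
    rw [← pow_mul, mul_comm]
  have hcV : cnt ≤ 2 ^ n := by
    calc cnt ≤ (univ : Finset (V n)).card := card_le_card (filter_subset _ _)
      _ = 2 ^ n := by simp [ZMod.card]
  have hcountN' : cnt * 2 ^ (2 * e) = 2 ^ (2 * n) := by
    rw [← hcountN, he, ← pow_mul, mul_comm 2 e]
  refine ⟨e, ?_, ?_, ?_⟩
  · by_contra hcon
    push Not at hcon
    have h1 : cnt * 2 ^ (2 * e) < 2 ^ n * 2 ^ n := by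
      calc cnt * 2 ^ (2 * e) ≤ 2 ^ n * 2 ^ (2 * e) := Nat.mul_le_mul_right _ hcV
        _ < 2 ^ n * 2 ^ n := by
          apply Nat.mul_lt_mul_of_pos_left _ (by positivity)
          exact Nat.pow_lt_pow_right (by norm_num) hcon
    rw [hcountN', two_mul, pow_add] at h1
    exact lt_irrefl _ h1
  · intro u
    by_cases h : W F u v = 0
    · exact Or.inl h
    · right; rw [hsq u h, hW2]
  · intro hen u
    have h1 : cnt = 2 ^ n := by
      rw [hen, two_mul, pow_add] at hcountN'
      exact Nat.eq_of_mul_eq_mul_right (by positivity) hcountN'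
    have h2 : univ.filter (fun u => W F u v ≠ 0) = univ := by
      apply eq_univ_of_card
      rw [← hcnt, h1]
      simp [ZMod.card]
    have h3 : u ∈ univ.filter (fun u => W F u v ≠ 0) := by rw [h2]; exact mem_univ _
    rw [hsq u (mem_filter.mp h3).2, hW2, hen]

/-- the number of trivial triples -/
lemma N3_graph {n : ℕ} {F : V n → V n} (hF : IsAPN F) (a : V n) :
    (N3 F a (F a) : ℤ) = 3 * 2 ^ n - 2 := by
  have h1 : (N3 F a (F a) : ℤ) = ∑ x : V n,
      ((univ.filter (fun y => F y + F (y + (x + a)) = F a + F x)).card : ℤ) := by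
    rw [N3, card_filter]
    push_cast
    rw [Fintype.sum_prod_type]
    apply sum_congr rfl
    intro x _
    rw [Fintype.sum_prod_type, card_filter]
    push_cast
    apply sum_congr rfl
    intro y _
    rw [sum_eq_single (y + (x + a))]
    · have e1 : x + y + (y + (x + a)) = a := by
        calc x + y + (y + (x + a)) = (x + x) + (y + y) + a := by abel
          _ = a := by rw [add_self, add_self]; simp
      have e2 : (F x + F y + F (y + (x + a)) = F a) ↔ (F y + F (y + (x + a)) = F a + F x) := by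
        constructor
        · intro h
          rw [← h]
          calc F y + F (y + (x + a)) = (F x + F x) + (F y + F (y + (x + a))) := by
                rw [add_self, zero_add]
            _ = F x + F y + F (y + (x + a)) + F x := by abel
        · intro h
          calc F x + F y + F (y + (x + a)) = F x + (F y + F (y + (x + a))) := by abel
            _ = F x + (F a + F x) := by rw [h]
            _ = (F x + F x) + F a := by abel
            _ = F a := by rw [add_self, zero_add]
      simp only [e1, true_and, e2]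
    · intro z _ hz
      rw [if_neg]
      rintro ⟨h, _⟩
      apply hz
      calc z = (x + x) + (y + y) + z := by rw [add_self, add_self]; simp
        _ = y + (x + (x + y + z)) := by abel
        _ = y + (x + a) := by rw [h]
    · intro h; exact absurd (mem_univ _) h
  have h2 : ∀ x : V n, ((univ.filter (fun y => F y + F (y + (x + a)) = F a + F x)).card : ℤ) =
      if x = a then 2 ^ n else 2 := by
    intro x
    split_ifs with hx
    · subst hx
      have : univ.filter (fun y => F y + F (y + (x + x)) = F x + F x) = univ := by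
        apply filter_true_of_mem
        intro y _
        rw [add_self, add_zero, add_self, add_self]
      rw [this]
      simp [ZMod.card]
    · have hne : x + a ≠ 0 := fun h => hx (add_eq_zero'.mp h)
      have hmem : a ∈ univ.filter (fun y => F y + F (y + (x + a)) = F a + F x) := by
        rw [mem_filter]
        refine ⟨mem_univ _, ?_⟩
        have : a + (x + a) = x := by
          calc a + (x + a) = x + (a + a) := by abel
            _ = x := by rw [add_self, add_zero]
        rw [this]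
      rcases hF (x + a) hne (F a + F x) with h | h
      · rw [card_eq_zero] at h
        rw [h] at hmem
        simp at hmem
      · rw [h]; norm_num
  rw [h1, sum_congr rfl (fun x _ => h2 x)]
  rw [← add_sum_erase univ _ (mem_univ a), if_pos rfl]
  have h3 : ∑ x ∈ univ.erase a, (if x = a then (2 : ℤ) ^ n else 2) = ∑ x ∈ univ.erase a, 2 :=
    sum_congr rfl (fun x hx => if_neg (mem_erase.mp hx).1)
  rw [h3, sum_const, card_erase_of_mem (mem_univ _), card_univ]
  have h4 : Fintype.card (V n) = 2 ^ n := by simp [ZMod.card]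
  rw [h4, nsmul_eq_mul, Nat.cast_sub Nat.one_le_two_pow]
  push_cast
  ring

lemma sum_W_chi {n : ℕ} (F : V n → V n) (y : V n) :
    ∑ v : V n, W F 0 v * chi (v ⬝ᵥ y) = 2 ^ n * ((univ.filter (fun x => F x = y)).card : ℤ) := by
  have h1 : ∀ v : V n, W F 0 v * chi (v ⬝ᵥ y) = ∑ x : V n, chi (v ⬝ᵥ (F x + y)) := by
    intro v
    rw [W_eq, sum_mul]
    apply sum_congr rfl
    intro x _
    rw [zero_dotProduct, chi_zero, mul_one, dotProduct_add, chi_add]
  simp only [h1]
  rw [sum_comm]
  simp only [sum_chi]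
  rw [card_filter]
  push_cast
  rw [mul_sum]
  apply sum_congr rfl
  intro x _
  by_cases h : F x = y
  · rw [if_pos (add_eq_zero'.mpr h), if_pos h]; ring
  · rw [if_neg (fun h' => h (add_eq_zero'.mp h')), if_neg h]; ring

/-- the number of ordered triples is `2` modulo `4` -/
lemma N3_mod {n : ℕ} (hn : 3 ≤ n) {F : V n → V n} (hA : IsAPN F) (hP : IsPlateaued F)
    (a b : V n) : ∃ M : ℤ, Even M ∧ (N3 F a b : ℤ) = 3 * 2 ^ n - 2 - 2 * M := by
  classical
  choose! e he using fun v => exists_exp hP v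
  let L : V n → ℤ := fun v => if v = 0 then 2 ^ n * 2 ^ n else 2 ^ (2 * e v)
  have hL : ∀ u v, W F u v ^ 3 = L v * W F u v := by
    intro u v
    by_cases hv : v = 0
    · subst hv
      simp only [L, if_pos, W_zero]
      by_cases hu : u = 0
      · simp [hu]; ring
      · simp [hu]
    · simp only [L, if_neg hv]
      rcases (he v hv).2.1 u with h | h
      · rw [h]; ring
      · rw [← h]; ring
  set c := F a + b with hc
  let S : Finset (V n) := univ.filter (fun v => v ⬝ᵥ c = 1)
  have hS0 : ∀ v ∈ S, v ≠ 0 := by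
    rintro v hv rfl
    rw [mem_filter, zero_dotProduct] at hv
    exact absurd hv.2 (by decide)
  let M : ℤ := ∑ v ∈ S, 2 ^ (2 * e v - n)
  have hchi : ∀ v : V n, chi (v ⬝ᵥ c) = 1 - 2 * (if v ∈ S then 1 else 0) := by
    intro v
    have h2 : ∀ t : ZMod 2, chi t = 1 - 2 * (if t = 1 then 1 else 0) := by decide
    rw [h2]
    simp [S]
  have hE := key_sum F L hL a b
  have hE0 := key_sum F L hL a (F a)
  rw [add_self] at hE0
  simp only [dotProduct_zero, chi_zero, mul_one] at hE0
  rw [N3_graph hA] at hE0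
  have hM : (N3 F a b : ℤ) = 3 * 2 ^ n - 2 - 2 * M := by
    have h1 : ∑ v : V n, L v * chi (v ⬝ᵥ c) = ∑ v : V n, L v - 2 * ∑ v ∈ S, L v := by
      have h2 : ∀ v : V n, L v * chi (v ⬝ᵥ c) = L v - (if v ∈ S then 2 * L v else 0) := by
        intro v
        rw [hchi]
        split_ifs <;> ring
      rw [sum_congr rfl (fun v _ => h2 v), sum_sub_distrib, sum_ite_mem, univ_inter, mul_sum]
    have h3 : ∑ v ∈ S, L v = 2 ^ n * M := by
      rw [mul_sum]
      apply sum_congr rfl
      intro v hv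
      have hv0 := hS0 v hv
      simp only [L, if_neg hv0]
      rw [← pow_add]
      congr 1
      have := (he v hv0).1
      omega
    rw [h1, h3, ← hE0] at hE
    have h4 : (2 : ℤ) ^ n ≠ 0 := by positivity
    apply mul_left_cancel₀ h4
    rw [hE]
    ring
  refine ⟨M, ?_, hM⟩
  rcases Nat.even_or_odd n with hn2 | hn2
  · obtain ⟨k, hk⟩ := hn2
    have hk2 : 2 ≤ k := by omega
    have hw : ∀ v ∈ S, ∃ w : ℤ, W F 0 v = 2 ^ k * w ∧ Even ((2 : ℤ) ^ (2 * e v - n) - w) := by
      intro v hv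
      have hv0 := hS0 v hv
      obtain ⟨h1, h2, h3⟩ := he v hv0
      have hek : k ≤ e v := by omega
      obtain ⟨d, hd⟩ := Nat.exists_eq_add_of_le hek
      have hexp : 2 * e v - n = 2 * d := by omega
      rw [hexp]
      rcases h2 0 with h4 | h4
      · refine ⟨0, by rw [h4]; ring, ?_⟩
        rw [sub_zero]
        have hd0 : d ≠ 0 := by
          rintro rfl
          have h5 := h3 (by omega) 0
          rw [h4] at h5
          have : (0 : ℤ) < 2 ^ n := by positivity
          simp at h5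
          omega
        exact (even_two.pow_of_ne_zero (by omega : 2 * d ≠ 0))
      · have h5 : W F 0 v = 2 ^ (e v) ∨ W F 0 v = -2 ^ (e v) := by
          have h6 : W F 0 v ^ 2 = ((2 : ℤ) ^ (e v)) ^ 2 := by rw [h4, ← pow_mul, mul_comm]
          exact sq_eq_sq_iff_eq_or_eq_neg.mp h6
        rcases Nat.eq_zero_or_pos d with hd0 | hd0
        · subst hd0
          rcases h5 with h5 | h5
          · refine ⟨1, by rw [h5, hd]; simp, ?_⟩
            simp
          · refine ⟨-1, by rw [h5, hd]; simp, ?_⟩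
            norm_num
        · have he2 : Even ((2 : ℤ) ^ (2 * d)) := even_two.pow_of_ne_zero (by omega)
          have he3 : Even ((2 : ℤ) ^ d) := even_two.pow_of_ne_zero (by omega)
          rcases h5 with h5 | h5
          · exact ⟨2 ^ d, by rw [h5, hd, pow_add], he2.sub he3⟩
          · exact ⟨-2 ^ d, by rw [h5, hd, pow_add]; ring, he2.sub he3.neg⟩
    choose! w hw1 hw2 using hw
    have hsumW : 2 * ∑ v ∈ S, W F 0 v = 2 ^ n * (((univ.filter (fun x => F x = 0)).card : ℤ) -
        ((univ.filter (fun x => F x = c)).card : ℤ)) := by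
      rw [mul_sub, ← sum_W_chi, ← sum_W_chi, ← sum_sub_distrib]
      have h2 : ∀ v : V n, W F 0 v * chi (v ⬝ᵥ 0) - W F 0 v * chi (v ⬝ᵥ c) =
          (if v ∈ S then 2 * W F 0 v else 0) := by
        intro v
        rw [hchi, dotProduct_zero, chi_zero]
        split_ifs <;> ring
      rw [sum_congr rfl (fun v _ => h2 v), sum_ite_mem, univ_inter, mul_sum]
    have hsumw : ∑ v ∈ S, W F 0 v = 2 ^ k * ∑ v ∈ S, w v := by
      rw [mul_sum]
      exact sum_congr rfl (fun v hv => hw1 v hv)
    have hEw : Even (∑ v ∈ S, w v) := by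
      obtain ⟨j, hj⟩ := Nat.exists_eq_add_of_le hk2
      have h4 : (2 : ℤ) ^ (k + 1) ≠ 0 := by positivity
      have h5 : (2 : ℤ) ^ (k + 1) * ∑ v ∈ S, w v = 2 ^ (k + 1) * (2 * (2 ^ j *
          (((univ.filter (fun x => F x = 0)).card : ℤ) -
            ((univ.filter (fun x => F x = c)).card : ℤ)))) := by
        have h6 : (2 : ℤ) ^ (k + 1) * ∑ v ∈ S, w v = 2 * ∑ v ∈ S, W F 0 v := by
          rw [hsumw, pow_succ]; ring
        have h7 : (2 : ℤ) ^ n = 2 ^ (k + 1) * (2 * 2 ^ j) := by
          rw [← pow_succ', ← pow_add]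
          congr 1
          omega
        rw [h6, hsumW, h7]
        ring
      rw [mul_left_cancel₀ h4 h5]
      exact even_two_mul _
    have hdiff : Even (M - ∑ v ∈ S, w v) := by
      rw [← sum_sub_distrib]
      exact even_sum _ (fun v hv => hw2 v hv)
    have : M = (M - ∑ v ∈ S, w v) + ∑ v ∈ S, w v := by ring
    rw [this]
    exact hdiff.add hEw
  · apply even_sum
    intro v hv
    have hv0 := hS0 v hv
    have h1 := (he v hv0).1
    obtain ⟨k, hk⟩ := hn2
    exact even_two.pow_of_ne_zero (by omega)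

/-! ### unordered triples -/

lemma card_ordered {α : Type*} [DecidableEq α] [Fintype α] (S : Finset α) (hS : S.card = 3) :
    (univ.filter (fun t : α × α × α => ({t.1, t.2.1, t.2.2} : Finset α) = S)).card = 6 := by
  obtain ⟨x, y, z, hxy, hxz, hyz, rfl⟩ := card_eq_three.mp hS
  have h : univ.filter (fun t : α × α × α => ({t.1, t.2.1, t.2.2} : Finset α) = {x, y, z}) =
      {(x, y, z), (x, z, y), (y, x, z), (y, z, x), (z, x, y), (z, y, x)} := by
    ext ⟨a, b, c⟩
    simp only [mem_filter, mem_univ, true_and, mem_insert, mem_singleton, Prod.mk.injEq]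
    constructor
    · intro h
      have ha : a ∈ ({x, y, z} : Finset α) := by rw [← h]; simp
      have hb : b ∈ ({x, y, z} : Finset α) := by rw [← h]; simp
      have hc : c ∈ ({x, y, z} : Finset α) := by rw [← h]; simp
      have hx : x ∈ ({a, b, c} : Finset α) := by rw [h]; simp
      have hy : y ∈ ({a, b, c} : Finset α) := by rw [h]; simp
      have hz : z ∈ ({a, b, c} : Finset α) := by rw [h]; simp
      simp only [mem_insert, mem_singleton] at ha hb hc hx hy hz
      rcases ha with rfl | rfl | rfl <;> rcases hb with rfl | rfl | rfl <;>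
        rcases hc with rfl | rfl | rfl <;> simp_all <;> tauto
    · rintro (⟨rfl, rfl, rfl⟩ | ⟨rfl, rfl, rfl⟩ | ⟨rfl, rfl, rfl⟩ | ⟨rfl, rfl, rfl⟩ |
        ⟨rfl, rfl, rfl⟩ | ⟨rfl, rfl, rfl⟩) <;> (ext w; simp; try tauto)
  rw [h]
  rw [card_insert_of_notMem, card_insert_of_notMem, card_insert_of_notMem, card_insert_of_notMem,
    card_insert_of_notMem, card_singleton]
  all_goals simp_all [eq_comm]

lemma distinct_of_card {α : Type*} [DecidableEq α] {x y z : α}
    (h : ({x, y, z} : Finset α).card = 3) : x ≠ y ∧ x ≠ z ∧ y ≠ z := by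
  refine ⟨?_, ?_, ?_⟩
  · rintro rfl
    have : ({x, x, z} : Finset α) = {x, z} := by simp
    rw [this] at h
    have := card_le_two (a := x) (b := z)
    omega
  · rintro rfl
    have : ({x, y, x} : Finset α) = {x, y} := by ext w; simp; tauto
    rw [this] at h
    have := card_le_two (a := x) (b := y)
    omega
  · rintro rfl
    have : ({x, y, y} : Finset α) = {x, y} := by simp
    rw [this] at h
    have := card_le_two (a := x) (b := y)
    omega

lemma mem_graph {n : ℕ} {F : V n → V n} {s : V n × V n} : s ∈ graph F ↔ s.2 = F s.1 := by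
  rw [graph, mem_image]
  constructor
  · rintro ⟨x, _, rfl⟩; rfl
  · intro h; exact ⟨s.1, mem_univ _, by rw [← h]⟩

lemma add_self_pair {n : ℕ} (s : V n × V n) : s + s = 0 := by
  ext1
  · exact add_self s.1
  · exact add_self s.2

lemma six_mul {n : ℕ} (F : V n → V n) (p : V n × V n) (hp : p ∉ graph F) :
    6 * exclMult F p = N3 F p.1 p.2 := by
  let T : Finset ((V n × V n) × (V n × V n) × (V n × V n)) :=
    univ.filter (fun t => t.1 ∈ graph F ∧ t.2.1 ∈ graph F ∧ t.2.2 ∈ graph F ∧
      t.1 + t.2.1 + t.2.2 = p)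
  have h1 : N3 F p.1 p.2 = T.card := by
    apply card_bij (fun t _ => ((t.1, F t.1), (t.2.1, F t.2.1), (t.2.2, F t.2.2)))
    · intro t ht
      rw [mem_filter] at ht
      rw [mem_filter]
      refine ⟨mem_univ _, mem_graph.mpr rfl, mem_graph.mpr rfl, mem_graph.mpr rfl, ?_⟩
      exact Prod.ext ht.2.1 ht.2.2
    · intro t _ t' _ h
      simp only [Prod.mk.injEq] at h
      exact Prod.ext h.1.1 (Prod.ext h.2.1.1 h.2.2.1)
    · rintro ⟨s1, s2, s3⟩ hs
      rw [mem_filter] at hs
      obtain ⟨-, g1, g2, g3, hsum⟩ := hs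
      simp only at g1 g2 g3 hsum
      rw [mem_graph] at g1 g2 g3
      refine ⟨(s1.1, s2.1, s3.1), ?_, ?_⟩
      · rw [mem_filter]
        refine ⟨mem_univ _, ?_, ?_⟩
        · simp only; rw [← hsum]; rfl
        · simp only; rw [← g1, ← g2, ← g3, ← hsum]; rfl
      · simp only
        rw [← g1, ← g2, ← g3]
  have hmaps : ∀ t ∈ T, ({t.1, t.2.1, t.2.2} : Finset (V n × V n)) ∈
      ((graph F).powersetCard 3).filter (fun S => ∑ s ∈ S, s = p) := by
    intro t ht
    rw [mem_filter] at ht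
    obtain ⟨-, g1, g2, g3, hsum⟩ := ht
    have d12 : t.1 ≠ t.2.1 := by
      intro h
      rw [h, add_self_pair, zero_add] at hsum
      exact hp (hsum ▸ g3)
    have d13 : t.1 ≠ t.2.2 := by
      intro h
      have : t.1 + t.2.1 + t.2.2 = (t.2.2 + t.2.2) + t.2.1 := by rw [h]; abel
      rw [this, add_self_pair, zero_add] at hsum
      exact hp (hsum ▸ g2)
    have d23 : t.2.1 ≠ t.2.2 := by
      intro h
      have : t.1 + t.2.1 + t.2.2 = (t.2.2 + t.2.2) + t.1 := by rw [h]; abel
      rw [this, add_self_pair, zero_add] at hsum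
      exact hp (hsum ▸ g1)
    rw [mem_filter, mem_powersetCard]
    refine ⟨⟨?_, ?_⟩, ?_⟩
    · intro s hs
      simp only [mem_insert, mem_singleton] at hs
      rcases hs with rfl | rfl | rfl
      · exact g1
      · exact g2
      · exact g3
    · rw [card_insert_of_notMem (by simp [d12, d13]), card_insert_of_notMem (by simp [d23]),
        card_singleton]
    · rw [sum_insert (by simp [d12, d13]), sum_insert (by simp [d23]), sum_singleton, ← hsum]
      abel
  rw [h1, card_eq_sum_card_fiberwise hmaps]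
  have h2 : ∀ S ∈ ((graph F).powersetCard 3).filter (fun S => ∑ s ∈ S, s = p),
      (T.filter (fun t => ({t.1, t.2.1, t.2.2} : Finset (V n × V n)) = S)).card = 6 := by
    intro S hS
    rw [mem_filter, mem_powersetCard] at hS
    rw [← card_ordered S hS.1.2]
    congr 1
    ext t
    constructor
    · intro ht
      exact mem_filter.mpr ⟨mem_univ _, (mem_filter.mp ht).2⟩
    · intro ht
      have h := (mem_filter.mp ht).2
      refine mem_filter.mpr ⟨?_, h⟩
      rw [mem_filter]
      have hc : ({t.1, t.2.1, t.2.2} : Finset (V n × V n)).card = 3 := by rw [h]; exact hS.1.2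
      obtain ⟨d12, d13, d23⟩ := distinct_of_card hc
      refine ⟨mem_univ _, hS.1.1 (h ▸ by simp), hS.1.1 (h ▸ by simp), hS.1.1 (h ▸ by simp), ?_⟩
      rw [← hS.2, ← h, sum_insert (by simp [d12, d13]), sum_insert (by simp [d23]), sum_singleton]
      abel
  rw [sum_congr rfl h2, sum_const, smul_eq_mul, mul_comm]
  rfl

/-- **All exclude multiplicities of a plateaued APN function in dimension `n ≥ 3` are odd.** -/
theorem result : ∀ n : ℕ, 3 ≤ n → ∀ F : V n → V n, IsAPN F → IsPlateaued F →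
    ∀ p : V n × V n, p ∉ graph F → Odd (exclMult F p) := by
  intro n hn F hA hP p hp
  obtain ⟨M, hM, hN⟩ := N3_mod hn hA hP p.1 p.2
  rw [← six_mul F p hp] at hN
  push_cast at hN
  obtain ⟨j, rfl⟩ := Nat.exists_eq_add_of_le hn
  obtain ⟨M', hM'⟩ := hM
  have h8 : (2 : ℤ) ^ (3 + j) = 8 * 2 ^ j := by rw [pow_add]; norm_num
  rw [h8, hM'] at hN
  -- 6 m = 24 * 2^j - 2 - 4 M', so 3 m = 12 * 2^j - 1 - 2 M'
  by_contra hcon
  rw [Nat.not_odd_iff_even] at hcon
  obtain ⟨m, hm⟩ := hcon
  rw [hm] at hN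
  push_cast at hN
  omega

end Pool.Agent.Results.MP_b298ef_co.OddMultiplicities
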